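import Pool.Agent.H474.MS.Stm3

/-!
# Project MS of helper474, part K3: the fourth moment of a trigonometric sum
-/

set_option autoImplicit false

open MeasureTheory Filter Topology Set

namespace Pool.Agent.H367.MS.K3

open Pool.Agent.H474.MS

/-- the powers of the cosine over a period -/
theorem cos_pow (θ : ℝ) (k : ℕ) :
    ∫ x in (0 : ℝ)..(2 * Real.pi), Real.cos (x + θ) ^ (k + 2) =
      (k + 1) / (k + 2) * ∫ x in (0 : ℝ)..(2 * Real.pi), Real.cos (x + θ) ^ k := by
  rw [intervalIntegral.integral_comp_add_right (fun x => Real.cos x ^ (k + 2)),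
    intervalIntegral.integral_comp_add_right (fun x => Real.cos x ^ k), integral_cos_pow]
  have h1 : Real.cos (2 * Real.pi + θ) = Real.cos (0 + θ) := by
    rw [add_comm (2 * Real.pi), Real.cos_add_two_pi, zero_add]
  have h2 : Real.sin (2 * Real.pi + θ) = Real.sin (0 + θ) := by
    rw [add_comm (2 * Real.pi), Real.sin_add_two_pi, zero_add]
  rw [h1, h2, sub_self, zero_div, zero_add]

theorem cos_zero' (θ : ℝ) : ∫ x in (0 : ℝ)..(2 * Real.pi), Real.cos (x + θ) ^ 0 = 2 * Real.pi := by
  simp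

theorem cos_one' (θ : ℝ) : ∫ x in (0 : ℝ)..(2 * Real.pi), Real.cos (x + θ) ^ 1 = 0 := by
  simp only [pow_one]
  rw [intervalIntegral.integral_comp_add_right (fun x => Real.cos x), integral_cos]
  rw [add_comm (2 * Real.pi), Real.sin_add_two_pi, zero_add, sub_self]

/-- polynomials of degree four in the cosine -/
theorem poly_int (θ k0 k1 k2 k3 k4 : ℝ) :
    ∫ x in (0 : ℝ)..(2 * Real.pi), (k0 * Real.cos (x + θ) ^ 0 + k1 * Real.cos (x + θ) ^ 1 +
      k2 * Real.cos (x + θ) ^ 2 + k3 * Real.cos (x + θ) ^ 3 + k4 * Real.cos (x + θ) ^ 4) =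
      2 * Real.pi * (k0 + k2 / 2 + 3 / 8 * k4) := by
  have hi : ∀ (k : ℝ) (m : ℕ), IntervalIntegrable (fun x => k * Real.cos (x + θ) ^ m) volume 0
      (2 * Real.pi) := by
    intro k m
    apply Continuous.intervalIntegrable
    fun_prop
  rw [intervalIntegral.integral_add ((((hi k0 0).add (hi k1 1)).add (hi k2 2)).add (hi k3 3))
      (hi k4 4),
    intervalIntegral.integral_add (((hi k0 0).add (hi k1 1)).add (hi k2 2)) (hi k3 3),
    intervalIntegral.integral_add ((hi k0 0).add (hi k1 1)) (hi k2 2),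
    intervalIntegral.integral_add (hi k0 0) (hi k1 1)]
  simp only [intervalIntegral.integral_const_mul]
  rw [cos_pow θ 2, cos_pow θ 1, cos_pow θ 0, cos_zero', cos_one']
  push_cast
  ring

/-- the measure on the circle -/
noncomputable def nu : Measure ℝ := volume.restrict (Ioc (0 : ℝ) (2 * Real.pi))

instance : IsFiniteMeasure nu := by
  unfold nu
  infer_instance

theorem restrict_eq (n : ℕ) :
    (volume : Measure (Fin n → ℝ)).restrict (Set.pi Set.univ fun _ : Fin n => Ioc (0 : ℝ) (2 * Real.pi)) =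
      Measure.pi fun _ : Fin n => nu := by
  rw [volume_pi, Measure.restrict_pi_pi]
  rfl

/-- the sum of the first terms -/
noncomputable def SS {n : ℕ} (a θ x : Fin n → ℝ) : ℝ := ∑ i, 2 * a i * Real.cos (x i + θ i)

theorem SS_cont {n : ℕ} (a θ : Fin n → ℝ) : Continuous (SS a θ) := by
  unfold SS
  fun_prop

theorem SS_bound {n : ℕ} (a θ x : Fin n → ℝ) : |SS a θ x| ≤ ∑ i, 2 * |a i| := by
  unfold SS
  refine (Finset.abs_sum_le_sum_abs _ _).trans (Finset.sum_le_sum fun i _ => ?_)
  rw [abs_mul, abs_mul]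
  have h := Real.abs_cos_le_one (x i + θ i)
  have h2 : |(2 : ℝ)| = 2 := abs_of_pos (by norm_num)
  rw [h2]
  have h3 : 0 ≤ 2 * |a i| := by positivity
  nlinarith

theorem moments : ∀ (n : ℕ) (a θ : Fin n → ℝ), ∃ Q : ℝ, Q ≤ 3 * (2 * ∑ i, a i ^ 2) ^ 2 ∧
    ∀ c : ℝ, ∫ x, (c + SS a θ x) ^ 4 ∂(Measure.pi fun _ : Fin n => nu) =
      (2 * Real.pi) ^ n * (c ^ 4 + 6 * c ^ 2 * (2 * ∑ i, a i ^ 2) + Q) := by
  intro n
  induction n with
  | zero =>
    intro a θ
    refine ⟨0, by positivity, fun c => ?_⟩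
    have h1 : (Measure.pi fun _ : Fin 0 => nu) = Measure.dirac (fun i => i.elim0) :=
      Measure.pi_of_empty _ _
    rw [h1, integral_dirac]
    simp [SS]
  | succ n ih =>
    intro a θ
    obtain ⟨Q, hQ, hI⟩ := ih (fun j => a j.succ) (fun j => θ j.succ)
    set V : ℝ := 2 * ∑ j : Fin n, a j.succ ^ 2 with hV
    refine ⟨6 * a 0 ^ 4 + 12 * a 0 ^ 2 * V + Q, ?_, fun c => ?_⟩
    · rw [Fin.sum_univ_succ]
      have h : 2 * (a 0 ^ 2 + ∑ j : Fin n, a j.succ ^ 2) = 2 * a 0 ^ 2 + V := by rw [hV]; ring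
      rw [h]
      nlinarith [sq_nonneg (a 0 ^ 2)]
    · have hmp := measurePreserving_piFinSuccAbove (fun _ : Fin (n + 1) => nu) 0
      set g : ℝ × (Fin n → ℝ) → ℝ := fun p =>
        (c + 2 * a 0 * Real.cos (p.1 + θ 0) + SS (fun j => a j.succ) (fun j => θ j.succ) p.2) ^ 4
        with hg
      have hgc : Continuous g := by
        rw [hg]
        have := SS_cont (fun j : Fin n => a j.succ) (fun j => θ j.succ)
        fun_prop
      have hF : ∀ x : Fin (n + 1) → ℝ, (c + SS a θ x) ^ 4 =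
          g (MeasurableEquiv.piFinSuccAbove (fun _ => ℝ) 0 x) := by
        intro x
        have h1 : SS a θ x = 2 * a 0 * Real.cos (x 0 + θ 0) +
            SS (fun j : Fin n => a j.succ) (fun j => θ j.succ) (fun j => x j.succ) := by
          unfold SS
          rw [Fin.sum_univ_succ]
        have h2 : (MeasurableEquiv.piFinSuccAbove (fun _ : Fin (n + 1) => ℝ) 0 x) =
            (x 0, fun j : Fin n => x j.succ) := rfl
        rw [h1, h2, hg]
        simp only
        rw [add_assoc]
      have hgi : Integrable g (nu.prod (Measure.pi fun _ : Fin n => nu)) := by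
        refine Integrable.of_bound hgc.aestronglyMeasurable
          ((|c| + 2 * |a 0| + ∑ j : Fin n, 2 * |a j.succ|) ^ 4) ?_
        filter_upwards with p
        rw [hg]
        simp only
        rw [norm_pow, Real.norm_eq_abs]
        apply pow_le_pow_left₀ (abs_nonneg _)
        refine (abs_add_le _ _).trans (add_le_add ((abs_add_le _ _).trans (add_le_add le_rfl ?_))
          (SS_bound _ _ _))
        rw [abs_mul, abs_mul, abs_of_pos (by norm_num : (0 : ℝ) < 2)]
        have h := Real.abs_cos_le_one (p.1 + θ 0)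
        have h3 : 0 ≤ 2 * |a 0| := by positivity
        nlinarith
      calc ∫ x, (c + SS a θ x) ^ 4 ∂(Measure.pi fun _ : Fin (n + 1) => nu)
          = ∫ x, g (MeasurableEquiv.piFinSuccAbove (fun _ => ℝ) 0 x)
              ∂(Measure.pi fun _ : Fin (n + 1) => nu) := integral_congr_ae (ae_of_all _ hF)
        _ = ∫ p, g p ∂(nu.prod (Measure.pi fun _ : Fin n => nu)) :=
            hmp.integral_comp' g
        _ = ∫ x, ∫ y, g (x, y) ∂(Measure.pi fun _ : Fin n => nu) ∂nu := integral_prod g hgi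
        _ = ∫ x, (2 * Real.pi) ^ n * ((c + 2 * a 0 * Real.cos (x + θ 0)) ^ 4 +
              6 * (c + 2 * a 0 * Real.cos (x + θ 0)) ^ 2 * V + Q) ∂nu := by
            refine integral_congr_ae (ae_of_all _ fun x => ?_)
            exact hI (c + 2 * a 0 * Real.cos (x + θ 0))
        _ = (2 * Real.pi) ^ n * ∫ x in (0 : ℝ)..(2 * Real.pi),
              ((c ^ 4 + 6 * V * c ^ 2 + Q) * Real.cos (x + θ 0) ^ 0 +
              (8 * a 0 * c ^ 3 + 24 * V * a 0 * c) * Real.cos (x + θ 0) ^ 1 +
              (24 * a 0 ^ 2 * c ^ 2 + 24 * V * a 0 ^ 2) * Real.cos (x + θ 0) ^ 2 +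
              (32 * a 0 ^ 3 * c) * Real.cos (x + θ 0) ^ 3 +
              (16 * a 0 ^ 4) * Real.cos (x + θ 0) ^ 4) := by
            rw [integral_const_mul]
            congr 1
            rw [intervalIntegral.integral_of_le Real.two_pi_pos.le]
            refine integral_congr_ae (ae_of_all _ fun x => ?_)
            simp only
            ring
        _ = _ := by
            rw [poly_int, Fin.sum_univ_succ]
            have h : 2 * (a 0 ^ 2 + ∑ j : Fin n, a j.succ ^ 2) = 2 * a 0 ^ 2 + V := by rw [hV]; ring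
            rw [h]
            ring

theorem t_K3 (k1 : Pool.Agent.H474.MS.S_K1) : Pool.Agent.H474.MS.S_K3 := by
  intro n γ a θ hγ
  obtain ⟨Q, hQ, hI⟩ := moments n a θ
  have hcont : Continuous fun x : Fin n → ℝ => SS a θ x ^ 4 := (SS_cont a θ).pow 4
  have hper : ∀ (x : Fin n → ℝ) (i : Fin n),
      SS a θ (Function.update x i (x i + 2 * Real.pi)) ^ 4 = SS a θ x ^ 4 := by
    intro x i
    congr 1
    unfold SS
    refine Finset.sum_congr rfl fun j _ => ?_
    by_cases h : j = i
    · subst h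
      rw [Function.update_self, show x j + 2 * Real.pi + θ j = x j + θ j + 2 * Real.pi by ring,
        Real.cos_add_two_pi]
    · rw [Function.update_of_ne h]
  have h1 := k1 n γ hγ (fun x => SS a θ x ^ 4) hcont hper
  have h2 : (∫ x in Set.pi Set.univ (fun _ : Fin n => Ioc (0 : ℝ) (2 * Real.pi)), SS a θ x ^ 4) /
      (2 * Real.pi) ^ n = Q := by
    rw [restrict_eq]
    have h3 := hI 0
    simp only [zero_add] at h3
    rw [h3]
    have h4 : (2 * Real.pi) ^ n ≠ 0 := pow_ne_zero _ Real.two_pi_pos.ne'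
    field_simp
    ring
  rw [h2] at h1
  exact ⟨Q, hQ, h1⟩

end Pool.Agent.H367.MS.K3
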